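import Pool.Agent.H.MP_b4265e_pr.D

set_option autoImplicit false

namespace Pool.Agent.Results.MP_b4265e_pr.No

open Pool.Agent.H.MP_b4265e_pr MeasureTheory Filter Topology Finset
open scoped ENNReal

/-- Sites in an infinite open cluster. -/
def Cinf (ω : (Fin 3 → ℤ) → Fin 3 → Bool) : Set (Fin 3 → ℤ) := {x | (Cl ω x).Infinite}

/-- Edges of the infinite cluster inside the ball of radius `N` on which the gradient vanishes. -/
def Flat (ω : (Fin 3 → ℤ) → Fin 3 → Bool) (u : (Fin 3 → ℤ) → ℝ) (N : ℕ) : Set ((Fin 3 → ℤ) × Fin 3) :=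
  {p | (∀ i, |p.1 i| ≤ N ∧ |(p.1 + e p.2) i| ≤ N) ∧ ω p.1 p.2 = true ∧ p.1 ∈ Cinf ω ∧
    u (p.1 + e p.2) - u p.1 = 0}

/-- A counterexample in the configuration `ω`. -/
def Bad (ω : (Fin 3 → ℤ) → Fin 3 → Bool) (u : (Fin 3 → ℤ) → ℝ) : Prop :=
  (∃ o, ∀ x ∈ Cinf ω, x ≠ o → ∑ d, (u (nb ω x d) - u x) = 0) ∧ Tendsto u cofinite (𝓝 0) ∧
    (∃ c : ℝ, 0 < c ∧ ∀ᶠ N : ℕ in atTop, c * (2 * N + 1) ^ 3 ≤ (Flat ω u N).ncard) ∧
    {x ∈ Cinf ω | u x ≠ 0}.Infinite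

theorem result : ∃ p₀ : ℝ≥0∞, p₀ < 1 ∧ ∀ ν : Measure Bool, IsProbabilityMeasure ν →
    p₀ < ν {true} → ν {true} < 1 →
      ∃ E, MeasurableSet E ∧ P ν E ≠ 0 ∧ ∀ᵐ ω ∂P ν, ω ∈ E → ∃ u, Bad ω u := by
  obtain ⟨δ, hδ⟩ : ∃ δ : ℝ≥0∞, δ = 432⁻¹ ^ 12 * 2⁻¹ ^ 60 / 3 := ⟨_, rfl⟩
  have δ2 : δ ≤ 2⁻¹ := by
    rw [hδ, ← ENNReal.toReal_le_toReal (by finiteness) (by finiteness)]; simp; norm_num
  refine ⟨1 - δ, ENNReal.sub_lt_self (by simp) (by simp) (by simp [hδ]), fun ν i h1 h2 => ?_⟩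
  have f : ν {false} = 1 - ν {true} := by
    rw [← prob_compl_eq_one_sub .of_discrete, Bool.compl_singleton]; rfl
  have h3 : ν {false} ≤ δ := by rw [f, tsub_le_iff_left, ← tsub_le_iff_right]; exact h1.le
  have hq : 3 * ν {false} ≤ 432⁻¹ ^ 12 * 2⁻¹ ^ 60 := by
    rw [mul_comm, ← ENNReal.le_div_iff_mul_le (by simp) (by simp), ← hδ]; exact h3
  obtain ⟨η, η0, E, mE, pE, hE⟩ := dens hq (le_trans (by
    rw [← ENNReal.one_sub_inv_two]; exact tsub_le_tsub_left δ2 _) h1.le) (f ▸ (tsub_pos_of_lt h2).ne')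
  refine ⟨E, mE, pE, (Hb_ae hq).mono fun ω hω k => ?_⟩
  obtain ⟨X, X1, X2⟩ := hE ω k 1
  obtain ⟨z, hz⟩ : X.Nonempty := card_pos.1 (by rify; simp at X1; linarith)
  have sy : ∀ x y, y ∈ Cl ω x → y ∈ Cinf ω ∨ (Cl ω x).Finite := fun x y h => by
    induction h with
    | refl => exact (Cl ω x).finite_or_infinite.symm
    | @tail a _ _ h ih =>
      obtain ⟨d, rfl⟩ := h
      exact ih.imp_left fun k => k.mono fun w hw => .head ⟨_, nb_iv a d⟩ hw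
  have z1 : ω z 0 = true := by simpa using (X2 z hz).2.1.1 0 (by norm_num)
  have oi : (Cl ω (z + e 0)).Infinite := (sy z _ (.single ⟨(0, true), by simp [nb, z1]⟩)).resolve_right
    (X2 z hz).2.2
  obtain ⟨a, a1, ha⟩ := iso (hω _) oi
  obtain ⟨u, u1, u2, u3⟩ := green iv_iv nb_iv a1 ha
  refine ⟨u, ⟨_, fun x _ => u1 x⟩, u2, ⟨η / 27, by positivity, eventually_atTop.2 ⟨1, fun N hN => ?_⟩⟩,
    oi.mono fun y hy => ⟨(sy _ y hy).resolve_right oi, (u3 y hy).ne'⟩⟩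
  obtain ⟨Y, Y1, Y2⟩ := hE ω k N
  have c : (Y : Set (Fin 3 → ℤ)).ncard ≤ (Flat ω u N).ncard := Set.ncard_le_ncard_of_injOn (·, 0)
    (fun x hx => by
      obtain ⟨b, ⟨p1, p2, p3⟩, q⟩ := Y2 x hx
      have x1 : ω x 0 = true := by simpa using p1 0 (by norm_num)
      simp only [zero_add, neg_add_eq_sub] at p2 p3
      refine ⟨fun i => ?_, x1, q, ?_⟩
      · have := b i
        simp only [Pi.add_apply, e, Pi.single_apply, abs_le]
        split_ifs <;> omega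
      · have := u1 x (by rintro rfl; simpa [z1] using p3 0)
        simp [Fintype.sum_prod_type, Fin.sum_univ_three, nb, x1, p2, p3] at this
        linarith)
    (fun _ _ _ _ h => congrArg Prod.fst h) (((Fintype.piFinset fun _ => Icc (-N : ℤ) N) ×ˢ univ).finite_toSet.subset
      fun p hp => mem_coe.2 (mem_product.2 ⟨Fintype.mem_piFinset.2 fun i => mem_Icc.2 (abs_le.1 (hp.1 i).1),
        mem_univ _⟩))
  rw [Set.ncard_coe_finset] at c
  have : (2 * N + 1 : ℝ) ^ 3 ≤ (3 * N) ^ 3 := by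
    rify at hN
    exact pow_le_pow_left₀ (by positivity) (by linarith) 3
  rify at c
  nlinarith [mul_le_mul_of_nonneg_left this η0.le]

end Pool.Agent.Results.MP_b4265e_pr.No
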